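import Pool.Agent.MP_5c28a4_al.H89S.Spec

/-!
Decomposition under a coprime elementary abelian action.
-/

set_option autoImplicit false

namespace Pool.Agent.MP_5c28a4_al.H89S

open scoped commutatorElement

namespace DecA

/-- The logarithm of a character of exponent `r`. -/
lemma logchar {Z K : Type} [Group Z] [CommRing K] [IsDomain K] {r : ℕ} (hr : r.Prime)
    (χ : Z →* K) (h : ∀ z, χ z ^ r = 1) :
    ∃ ζ : Z → ZMod r, (∀ x y, ζ (x * y) = ζ x + ζ y) ∧ ∀ z, ζ z = 0 → χ z = 1 := by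
  have : Fact r.Prime := ⟨hr⟩
  by_cases h0 : ∀ z, χ z = 1
  · exact ⟨0, fun _ _ => by simp, fun z _ => h0 z⟩
  obtain ⟨z0, h1⟩ := not_forall.1 h0
  have h2 : orderOf (χ z0) = r := orderOf_eq_prime (h z0) h1
  have h3 : IsPrimitiveRoot (χ z0) r := IsPrimitiveRoot.iff_orderOf.2 h2
  have h4 : IsOfFinOrder (χ z0) := orderOf_pos_iff.1 (h2 ▸ hr.pos)
  choose f _ hf using fun z => h3.eq_pow_of_pow_eq_one (h z)
  refine ⟨fun z => (f z : ZMod r), fun x y => ?_, fun z hz => ?_⟩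
  · rw [← Nat.cast_add, ZMod.natCast_eq_natCast_iff, ← h2, ← h4.pow_eq_pow_iff_modEq, pow_add,
      hf, hf, hf, map_mul]
  · rw [← hf, h3.pow_eq_one_iff_dvd]
    exact (ZMod.natCast_eq_zero_iff _ _).1 hz

/-- The module form. -/
lemma core {Z V : Type} [CommGroup Z] [Finite Z] [AddCommGroup V] (ρ : Representation ℤ Z V)
    {q r : ℕ} (hq : q.Prime) (hr : r.Prime) (hqr : q ≠ r) (h1 : ∀ z : Z, z ^ r = 1)
    (h2 : ∀ v : V, q • v = 0) (W : AddSubgroup V)
    (hW : ∀ ζ : Z → ZMod r, (∀ x y, ζ (x * y) = ζ x + ζ y) →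
      ∀ v, (∀ z, ζ z = 0 → ρ z v = v) → v ∈ W) (v : V) : v ∈ W := by
  classical
  have : Fact r.Prime := ⟨hr⟩
  let J : Ideal (MonoidAlgebra ℤ Z) :=
    { carrier := {x | ∀ v, ρ.asAlgebraHom x v ∈ W}
      zero_mem' := fun v => by simp
      add_mem' := fun {a b} ha hb v => by
        rw [map_add, LinearMap.add_apply]
        exact W.add_mem (ha v) (hb v)
      smul_mem' := fun a x hx v => by
        rw [smul_eq_mul, mul_comm, map_mul, Module.End.mul_apply]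
        exact hx _ }
  suffices hJ : J = ⊤ by
    have h3 : (1 : MonoidAlgebra ℤ Z) ∈ J := hJ ▸ Submodule.mem_top
    simpa using h3 v
  by_contra hJ
  obtain ⟨m, hm, hJm⟩ := Ideal.exists_le_maximal J hJ
  have : IsDomain (MonoidAlgebra ℤ Z ⧸ m) := Ideal.Quotient.isDomain m
  let χ : Z →* MonoidAlgebra ℤ Z ⧸ m :=
    (Ideal.Quotient.mk m).toMonoidHom.comp (MonoidAlgebra.of ℤ Z)
  obtain ⟨ζ, h3, h4⟩ := logchar hr χ (fun z => by rw [← map_pow, h1, map_one])
  have : Fintype χ.ker := Fintype.ofFinite _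
  have h5 : (∑ z : χ.ker, MonoidAlgebra.of ℤ Z z) ∈ J := fun v => hW ζ h3 _ (fun z hz => by
    simp only [map_sum, Representation.asAlgebraHom_of, LinearMap.sum_apply]
    rw [← Equiv.sum_comp (Equiv.mulLeft (⟨z, h4 z hz⟩ : χ.ker)) (fun y : χ.ker => ρ y v)]
    exact Finset.sum_congr rfl (fun y _ => by simp))
  have h6 : ((q : ℕ) : MonoidAlgebra ℤ Z) ∈ J := fun v => by
    rw [map_natCast, Module.End.natCast_apply, h2]
    exact W.zero_mem
  have h7 : ((Fintype.card χ.ker : ℕ) : MonoidAlgebra ℤ Z ⧸ m) = 0 := by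
    have e : ∀ z : χ.ker, Ideal.Quotient.mk m (MonoidAlgebra.of ℤ Z z) = 1 := fun z => z.2
    rw [← Ideal.Quotient.eq_zero_iff_mem.2 (hJm h5), map_sum]
    simp only [e, Finset.sum_const, Finset.card_univ, nsmul_one]
  have h8 : ((q : ℕ) : MonoidAlgebra ℤ Z ⧸ m) = 0 := by
    rw [← Ideal.Quotient.eq_zero_iff_mem.2 (hJm h6), map_natCast]
  have h9 : IsPGroup r χ.ker := IsPGroup.to_subgroup (fun z => ⟨1, by rw [pow_one, h1]⟩) _
  obtain ⟨n, hn⟩ := IsPGroup.iff_card.1 h9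
  have h10 : IsCoprime ((q : ℕ) : MonoidAlgebra ℤ Z ⧸ m) ((r ^ n : ℕ) : MonoidAlgebra ℤ Z ⧸ m) :=
    Nat.Coprime.cast (((Nat.coprime_primes hq hr).2 hqr).pow_right n)
  rw [← hn, Nat.card_eq_fintype_card, h7, h8] at h10
  exact not_isCoprime_zero_zero h10

/-- The form for automorphisms of an abelian group. -/
lemma core2 {H A : Type} [Group H] [CommGroup A] (φ : H →* MulAut A) (N : Subgroup H)
    [N.FiniteIndex] {q r : ℕ} (hq : q.Prime) (hr : r.Prime) (hqr : q ≠ r)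
    (h0 : ∀ x ∈ N, ∀ a, φ x a = a) (h1 : ∀ x y : H, ⁅x, y⁆ ∈ N) (h2 : ∀ x : H, x ^ r ∈ N)
    (h3 : ∀ a : A, a ^ q = 1) (W : Subgroup A)
    (hW : ∀ ζ : H → ZMod r, (∀ x y, ζ (x * y) = ζ x + ζ y) → (∀ x ∈ N, ζ x = 0) →
      ∀ a, (∀ x, ζ x = 0 → φ x a = a) → a ∈ W) (a : A) : a ∈ W := by
  have : N.Normal := ⟨fun n hn g => by
    have := N.mul_mem (h1 g n) hn
    simpa [commutatorElement_def] using this⟩
  let : CommGroup (H ⧸ N) :=
    { (inferInstance : Group (H ⧸ N)) with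
      mul_comm := fun x y => by
        induction x using QuotientGroup.induction_on
        induction y using QuotientGroup.induction_on
        rw [← commutatorElement_eq_one_iff_mul_comm]
        exact (QuotientGroup.eq_one_iff _).2 (h1 _ _) }
  let ρ0 : H →* Module.End ℤ (Additive A) :=
    { toFun := fun x => (MonoidHom.toAdditive (φ x).toMonoidHom).toIntLinearMap
      map_one' := by
        ext v
        simp
      map_mul' := fun x y => by
        ext v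
        simp }
  have e0 : ∀ x a, ρ0 x (Additive.ofMul a) = Additive.ofMul (φ x a) := fun _ _ => rfl
  let ρ : Representation ℤ (H ⧸ N) (Additive A) := QuotientGroup.lift N ρ0 (fun x hx =>
    LinearMap.ext (fun v => congrArg Additive.ofMul (h0 x hx v.toMul)))
  refine core ρ hq hr hqr (fun z => ?_) (fun v => congrArg Additive.ofMul (h3 v.toMul))
    W.toAddSubgroup (fun ζ h4 v h5 => ?_) (Additive.ofMul a)
  · induction z using QuotientGroup.induction_on
    exact (QuotientGroup.eq_one_iff _).2 (h2 _)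
  · refine hW (fun x => ζ x) (fun x y => h4 x y) (fun x hx => ?_) v.toMul
      (fun x hx => congrArg Additive.toMul (h5 x hx))
    have h6 := h4 1 1
    rw [mul_one] at h6
    change ζ x = 0
    rw [(QuotientGroup.eq_one_iff x).2 hx]
    exact left_eq_add.1 h6

end DecA

theorem dec : SDec := by
  intro G _ Y _ M E₁ E₂ q r hq hr hqr hYM hM hpow hN h21 hfi hc hp h2M
  classical
  let π := QuotientGroup.mk' Y
  have hπ : ∀ x, π x = 1 ↔ x ∈ Y := QuotientGroup.eq_one_iff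
  let : CommGroup (M.map π) :=
    { (inferInstance : Group (M.map π)) with
      mul_comm := by
        rintro ⟨_, a, ha, rfl⟩ ⟨_, b, hb, rfl⟩
        refine Subtype.ext (commutatorElement_eq_one_iff_mul_comm.1 ?_)
        exact (hπ ⁅a, b⁆).2 (hM (Subgroup.commutator_mem_commutator ha hb)) }
  have hnorm : ∀ x : E₁, (π.comp E₁.subtype) x ∈ Subgroup.normalizer (M.map π : Set (G ⧸ Y)) := by
    intro x
    rw [Subgroup.mem_normalizer_iff]
    intro y
    constructor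
    · rintro ⟨a, ha, rfl⟩
      exact ⟨x * a * x⁻¹, (hN x x.2 a ha).1, rfl⟩
    · rintro ⟨a, ha, h1⟩
      refine ⟨x⁻¹ * a * x, (hN x x.2 a ha).2, ?_⟩
      rw [map_mul, map_mul, h1]
      simp [mul_assoc]
  let φ : E₁ →* MulAut (M.map π) :=
    (M.map π).normalizerMonoidHom.comp ((π.comp E₁.subtype).codRestrict _ hnorm)
  have hφ : ∀ (x : E₁) (a : M.map π), (φ x a : G ⧸ Y) = π x * a * (π x)⁻¹ := fun _ _ => rfl
  have : (E₂.subgroupOf E₁).FiniteIndex := ⟨hfi⟩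
  obtain ⟨S, hS⟩ : ∃ S : Subgroup G, S =
    ⨆ ζ : {ζ : G → ZMod r // AddOn E₁ ζ ∧ ∀ x ∈ E₂, ζ x = 0},
      cz Y M {x | x ∈ E₁ ∧ ζ.1 x = 0} := ⟨_, rfl⟩
  have hle : ∀ ζ : G → ZMod r, AddOn E₁ ζ → (∀ x ∈ E₂, ζ x = 0) → ∀ a ∈ M,
      (∀ x ∈ E₁, ζ x = 0 → π x * π a = π a * π x) → a ∈ S := by
    intro ζ h1 h2 a ha h3
    rw [hS]
    refine Subgroup.mem_iSup_of_mem ⟨ζ, h1, h2⟩ ⟨ha, ?_⟩
    rintro _ ⟨x, hx, rfl⟩
    exact h3 x hx.1 hx.2
  have hYS : Y ≤ S := fun y hy => hle 0 (fun _ _ _ _ => by simp) (fun _ _ => rfl) y (hYM hy)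
    (fun x _ _ => by rw [(hπ y).2 hy, mul_one, one_mul])
  rw [← hS]
  intro a ha
  have key := DecA.core2 φ (E₂.subgroupOf E₁) hq hr hqr ?_
    (fun x y => hc (Subgroup.commutator_mem_commutator x.2 y.2)) (fun x => hp x x.2) ?_
    ((S.map π).subgroupOf (M.map π)) ?_ ⟨π a, a, ha, rfl⟩
  · obtain ⟨s, hs, h1⟩ := key
    have h2 : s⁻¹ * a ∈ Y := QuotientGroup.eq.1 h1
    simpa using S.mul_mem hs (hYS h2)
  · rintro x hx ⟨_, b, hb, rfl⟩
    refine Subtype.ext ?_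
    rw [hφ, mul_inv_eq_iff_eq_mul, ← commutatorElement_eq_one_iff_mul_comm]
    exact (hπ ⁅(x : G), b⁆).2 (h2M (Subgroup.commutator_mem_commutator hx hb))
  · rintro ⟨_, b, hb, rfl⟩
    exact Subtype.ext ((hπ (b ^ q)).2 (hpow b hb))
  · rintro ζ h1 h2 ⟨_, b, hb, rfl⟩ h3
    refine ⟨b, hle (fun g => if h : g ∈ E₁ then ζ ⟨g, h⟩ else 0) (fun x hx y hy => ?_)
      (fun x hx => ?_) b hb (fun x hx h4 => ?_), rfl⟩
    · simp only [dif_pos hx, dif_pos hy, dif_pos (E₁.mul_mem hx hy)]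
      exact h1 ⟨x, hx⟩ ⟨y, hy⟩
    · rw [dif_pos (h21 hx)]
      exact h2 _ hx
    · rw [dif_pos hx] at h4
      have h5 := congrArg Subtype.val (h3 _ h4)
      rw [hφ, mul_inv_eq_iff_eq_mul] at h5
      exact h5

end Pool.Agent.MP_5c28a4_al.H89S
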